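import Mathlib

/-!
# An energy estimate
-/

set_option autoImplicit false

open Filter Topology MeasureTheory ProbabilityTheory Set
open scoped ENNReal NNReal

noncomputable section

namespace Pool.Agent.V11331.ST

/-- the Gaussian kernel of the second coordinates -/
def Ker (v : ℝ≥0) (z : (ℝ × ℝ) × (ℝ × ℝ)) : ℝ :=
  Real.exp (-(v * (z.1.2 - z.2.2) ^ 2 / 2))

theorem Ker_meas (v : ℝ≥0) : Measurable (Ker v) := by
  unfold Ker
  fun_prop

theorem Ker_pos (v : ℝ≥0) (z) : 0 < Ker v z := Real.exp_pos _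

theorem Ker_le (v : ℝ≥0) (z) : Ker v z ≤ 1 := by
  unfold Ker
  rw [Real.exp_le_one_iff]
  have : 0 ≤ (v : ℝ) * (z.1.2 - z.2.2) ^ 2 / 2 := by positivity
  linarith

variable {μ : Measure (ℝ × ℝ)} [IsProbabilityMeasure μ]

theorem Ker_int (v : ℝ≥0) : Integrable (Ker v) (μ.prod μ) :=
  Integrable.of_bound (Ker_meas v).aestronglyMeasurable 1 (Eventually.of_forall fun z => by
    rw [Real.norm_of_nonneg (Ker_pos v z).le]
    exact Ker_le v z)

theorem energy_lower (v : ℝ≥0) (A : ℕ → Set (ℝ × ℝ)) (hA : ∀ k, MeasurableSet (A k))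
    (hd : Pairwise fun k l => Disjoint (A k) (A l)) (N : ℕ)
    (hN : μ (⋃ k ∈ Finset.range N, A k)ᶜ = 0)
    (hk : ∀ k, ∀ p ∈ A k, ∀ q ∈ A k, (v : ℝ) * (p.2 - q.2) ^ 2 ≤ 1) :
    Real.exp (-(1 / 2)) ≤ N * ∫ z, Ker v z ∂(μ.prod μ) := by
  have h1 : ∑ k ∈ Finset.range N, μ.real (A k) = 1 := by
    have h2 : μ.real (⋃ k ∈ Finset.range N, A k) = 1 := by
      have h3 : MeasurableSet (⋃ k ∈ Finset.range N, A k) :=
        Finset.measurableSet_biUnion _ fun k _ => hA k
      rw [measureReal_def, (prob_compl_eq_zero_iff h3).1 hN, ENNReal.toReal_one]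
    rw [← h2, measureReal_biUnion_finset (fun k _ l _ hkl => hd hkl) fun k _ => hA k]
  have h2 : (1 : ℝ) ≤ N * ∑ k ∈ Finset.range N, μ.real (A k) ^ 2 := by
    have := sq_sum_le_card_mul_sum_sq (s := Finset.range N) (f := fun k => μ.real (A k))
    rw [h1, Finset.card_range, one_pow] at this
    exact this
  have h3 : ∀ k, ∫ z : (ℝ × ℝ) × (ℝ × ℝ), (A k).indicator (fun _ => (1 : ℝ)) z.1 *
      (A k).indicator (fun _ => (1 : ℝ)) z.2 ∂(μ.prod μ) = μ.real (A k) ^ 2 := by
    intro k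
    rw [integral_prod_mul (fun p : ℝ × ℝ => (A k).indicator (fun _ => (1 : ℝ)) p)
      (fun p : ℝ × ℝ => (A k).indicator (fun _ => (1 : ℝ)) p), integral_indicator (hA k)]
    simp [pow_two]
  have hii : ∀ k, Integrable (fun z : (ℝ × ℝ) × (ℝ × ℝ) =>
      (A k).indicator (fun _ => (1 : ℝ)) z.1 * (A k).indicator (fun _ => (1 : ℝ)) z.2)
      (μ.prod μ) := by
    intro k
    exact ((integrable_const (1 : ℝ)).indicator (hA k)).mul_prod
      ((integrable_const (1 : ℝ)).indicator (hA k))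
  have h4 : ∑ k ∈ Finset.range N, μ.real (A k) ^ 2 * Real.exp (-(1 / 2)) ≤
      ∫ z, Ker v z ∂(μ.prod μ) := by
    have h5 : ∑ k ∈ Finset.range N, μ.real (A k) ^ 2 * Real.exp (-(1 / 2)) =
        ∫ z : (ℝ × ℝ) × (ℝ × ℝ), ∑ k ∈ Finset.range N, ((A k).indicator (fun _ => (1 : ℝ)) z.1 *
          (A k).indicator (fun _ => (1 : ℝ)) z.2) * Real.exp (-(1 / 2)) ∂(μ.prod μ) := by
      rw [integral_finsetSum _ fun k _ => (hii k).mul_const _]
      refine Finset.sum_congr rfl fun k _ => ?_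
      rw [integral_mul_const, h3]
    rw [h5]
    refine integral_mono (integrable_finsetSum _ fun k _ => (hii k).mul_const _) (Ker_int v) ?_
    intro z
    simp only
    by_cases hz : ∃ k, z.1 ∈ A k ∧ z.2 ∈ A k
    · obtain ⟨k, hk1, hk2⟩ := hz
      have h6 : ∀ l ∈ Finset.range N, l ≠ k → ((A l).indicator (fun _ => (1 : ℝ)) z.1 *
          (A l).indicator (fun _ => (1 : ℝ)) z.2) * Real.exp (-(1 / 2)) = 0 := by
        intro l _ hl
        rw [indicator_of_notMem (fun h => (Set.disjoint_left.1 (hd hl)) h hk1)]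
        simp
      have h7 : ∑ l ∈ Finset.range N, ((A l).indicator (fun _ => (1 : ℝ)) z.1 *
          (A l).indicator (fun _ => (1 : ℝ)) z.2) * Real.exp (-(1 / 2)) ≤
          Real.exp (-(1 / 2)) := by
        by_cases hkN : k ∈ Finset.range N
        · rw [Finset.sum_eq_single_of_mem k hkN h6, indicator_of_mem hk1, indicator_of_mem hk2]
          simp
        · rw [Finset.sum_eq_zero]
          · exact (Real.exp_pos _).le
          · intro l hl
            exact h6 l hl fun h => hkN (h ▸ hl)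
      refine h7.trans ?_
      unfold Ker
      rw [Real.exp_le_exp]
      have := hk k z.1 hk1 z.2 hk2
      linarith
    · rw [Finset.sum_eq_zero]
      · exact (Ker_pos v z).le
      · intro l _
        by_cases h8 : z.1 ∈ A l
        · have h9 : z.2 ∉ A l := fun h => hz ⟨l, h8, h⟩
          rw [indicator_of_notMem h9]
          simp
        · rw [indicator_of_notMem h8]
          simp
  rw [← Finset.sum_mul] at h4
  have hN0 : (0 : ℝ) ≤ N := Nat.cast_nonneg N
  calc Real.exp (-(1 / 2)) = 1 * Real.exp (-(1 / 2)) := (one_mul _).symm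
    _ ≤ (N * ∑ k ∈ Finset.range N, μ.real (A k) ^ 2) * Real.exp (-(1 / 2)) :=
        mul_le_mul_of_nonneg_right h2 (Real.exp_pos _).le
    _ = N * ((∑ k ∈ Finset.range N, μ.real (A k) ^ 2) * Real.exp (-(1 / 2))) := by ring
    _ ≤ N * ∫ z, Ker v z ∂(μ.prod μ) := mul_le_mul_of_nonneg_left h4 hN0

/-- the Fourier transform on the second axis -/
def ph (μ : Measure (ℝ × ℝ)) (x : ℝ) : ℂ := ∫ p, Complex.exp (((x * p.2 : ℝ) : ℂ) * Complex.I) ∂μ

theorem exp_int (μ : Measure (ℝ × ℝ)) [IsProbabilityMeasure μ] (x : ℝ) :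
    Integrable (fun p : ℝ × ℝ => Complex.exp (((x * p.2 : ℝ) : ℂ) * Complex.I)) μ :=
  Integrable.of_bound (by fun_prop) 1 (Eventually.of_forall fun z => by
    rw [Complex.norm_exp_ofReal_mul_I])

theorem energy_eq (v : ℝ≥0) :
    ∫ z, Ker v z ∂(μ.prod μ) = ∫ x, ‖ph μ x‖ ^ 2 ∂(gaussianReal 0 v) := by
  have h1 : ∀ z : (ℝ × ℝ) × (ℝ × ℝ), ((Ker v z : ℝ) : ℂ) =
      ∫ x, Complex.exp (((x * z.1.2 : ℝ) : ℂ) * Complex.I) *
        Complex.exp (((-(x * z.2.2) : ℝ) : ℂ) * Complex.I) ∂(gaussianReal 0 v) := by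
    intro z
    have h2 := charFun_gaussianReal (μ := 0) (v := v) (z.1.2 - z.2.2)
    rw [charFun_apply_real] at h2
    unfold Ker
    push_cast
    have h3 : Complex.exp (-(v * ((z.1.2 : ℂ) - z.2.2) ^ 2 / 2)) =
        Complex.exp (((z.1.2 - z.2.2 : ℝ) : ℂ) * ((0 : ℝ) : ℂ) * Complex.I -
          v * (((z.1.2 - z.2.2 : ℝ) : ℂ)) ^ 2 / 2) := by
      congr 1
      push_cast
      ring
    rw [h3, ← h2]
    refine integral_congr_ae (Eventually.of_forall fun x => ?_)
    simp only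
    rw [← Complex.exp_add]
    congr 1
    push_cast
    ring
  have h2 : ∀ x, ((‖ph μ x‖ ^ 2 : ℝ) : ℂ) =
      ∫ z, Complex.exp (((x * z.1.2 : ℝ) : ℂ) * Complex.I) *
        Complex.exp (((-(x * z.2.2) : ℝ) : ℂ) * Complex.I) ∂(μ.prod μ) := by
    intro x
    rw [integral_prod_mul (fun p : ℝ × ℝ => Complex.exp (((x * p.2 : ℝ) : ℂ) * Complex.I))
      (fun p : ℝ × ℝ => Complex.exp (((-(x * p.2) : ℝ) : ℂ) * Complex.I))]
    have h3 : ∫ p : ℝ × ℝ, Complex.exp (((-(x * p.2) : ℝ) : ℂ) * Complex.I) ∂μ =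
        (starRingEnd ℂ) (ph μ x) := by
      unfold ph
      rw [← integral_conj]
      refine integral_congr_ae (Eventually.of_forall fun p => ?_)
      simp only
      rw [← Complex.exp_conj]
      congr 1
      rw [map_mul, Complex.conj_ofReal, Complex.conj_I]
      push_cast
      ring
    rw [h3]
    show _ = ph μ x * (starRingEnd ℂ) (ph μ x)
    rw [Complex.mul_conj, Complex.normSq_eq_norm_sq]
  have h3 : ((∫ z, Ker v z ∂(μ.prod μ) : ℝ) : ℂ) =
      ((∫ x, ‖ph μ x‖ ^ 2 ∂(gaussianReal 0 v) : ℝ) : ℂ) := by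
    rw [← integral_complex_ofReal, ← integral_complex_ofReal]
    simp only [h1, h2]
    refine integral_integral_swap ?_
    refine Integrable.of_bound ?_ 1 (Eventually.of_forall fun z => ?_)
    · unfold Function.uncurry
      fun_prop
    · unfold Function.uncurry
      simp only
      rw [norm_mul, Complex.norm_exp_ofReal_mul_I, Complex.norm_exp_ofReal_mul_I, one_mul]
  exact_mod_cast h3

theorem ph_le (x : ℝ) : ‖ph μ x‖ ≤ 1 := by
  unfold ph
  refine (norm_integral_le_integral_norm _).trans ?_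
  have h : ∀ p : ℝ × ℝ, ‖Complex.exp (((x * p.2 : ℝ) : ℂ) * Complex.I)‖ = 1 := fun p =>
    Complex.norm_exp_ofReal_mul_I _
  simp only [h]
  simp

theorem ph_meas : Measurable fun x => ‖ph μ x‖ ^ 2 := by
  have h : StronglyMeasurable fun x => ph μ x := by
    unfold ph
    refine StronglyMeasurable.integral_prod_right (f := fun (x : ℝ) (p : ℝ × ℝ) =>
      Complex.exp (((x * p.2 : ℝ) : ℂ) * Complex.I)) ?_
    refine Measurable.stronglyMeasurable ?_
    unfold Function.uncurry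
    fun_prop
  exact h.norm.measurable.pow_const 2

theorem energy_upper {v : ℝ≥0} (hv : v ≠ 0) {C L : ℝ} (hL : 1 ≤ L)
    (hC : ∀ x : ℝ, 1 ≤ |x| → ‖ph μ x‖ ≤ C * |x| ^ (-(3 / 4) / 2 : ℝ)) :
    ∫ z, Ker v z ∂(μ.prod μ) ≤ L / √(v : ℝ) + C ^ 2 * L ^ (-(3 / 4) : ℝ) := by
  rw [energy_eq]
  have hv0 : (0 : ℝ) < v := by
    have := pos_iff_ne_zero.2 hv
    exact_mod_cast this
  have hC0 : 0 ≤ C ^ 2 * L ^ (-(3 / 4) : ℝ) := by positivity
  have h1 : ∀ x, ‖ph μ x‖ ^ 2 ≤
      (Icc (-L) L).indicator (fun _ => (1 : ℝ)) x + C ^ 2 * L ^ (-(3 / 4) : ℝ) := by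
    intro x
    by_cases hx : x ∈ Icc (-L) L
    · rw [indicator_of_mem hx]
      have := pow_le_one₀ (n := 2) (norm_nonneg _) (ph_le (μ := μ) x)
      linarith
    · rw [indicator_of_notMem hx, zero_add]
      have h2 : L < |x| := by
        by_contra h3
        exact hx (abs_le.1 (not_lt.1 h3))
      have h3 := hC x (hL.trans h2.le)
      have hxp : 0 < |x| := by linarith
      calc ‖ph μ x‖ ^ 2 ≤ (C * |x| ^ (-(3 / 4) / 2 : ℝ)) ^ 2 :=
            pow_le_pow_left₀ (norm_nonneg _) h3 2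
        _ = C ^ 2 * |x| ^ (-(3 / 4) : ℝ) := by
            rw [mul_pow, ← Real.rpow_natCast (|x| ^ (-(3 / 4) / 2 : ℝ)), ← Real.rpow_mul hxp.le]
            norm_num
        _ ≤ C ^ 2 * L ^ (-(3 / 4) : ℝ) := by
            refine mul_le_mul_of_nonneg_left ?_ (sq_nonneg C)
            exact Real.rpow_le_rpow_of_nonpos (by linarith) h2.le (by norm_num)
  have h2 : (gaussianReal 0 v).real (Icc (-L) L) ≤ L / √(v : ℝ) := by
    rw [measureReal_def, gaussianReal_apply_eq_integral _ hv]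
    have h3 : ∫ x in Icc (-L) L, gaussianPDFReal 0 v x ≤ ∫ x in Icc (-L) L, (1 / (2 * √(v : ℝ))) := by
      refine setIntegral_mono (integrable_gaussianPDFReal _ _).integrableOn
        (integrableOn_const (by simp) enorm_ne_top) ?_
      intro x
      simp only [gaussianPDFReal_def]
      have h4 : Real.exp (-(x - 0) ^ 2 / (2 * v)) ≤ 1 := by
        rw [Real.exp_le_one_iff]
        exact div_nonpos_of_nonpos_of_nonneg (neg_nonpos.2 (sq_nonneg _)) (by positivity)
      have h5 : (√(2 * Real.pi * v))⁻¹ ≤ 1 / (2 * √(v : ℝ)) := by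
        rw [← one_div]
        refine one_div_le_one_div_of_le (by positivity) ?_
        rw [Real.sqrt_mul (by positivity)]
        refine mul_le_mul_of_nonneg_right ?_ (Real.sqrt_nonneg _)
        refine Real.le_sqrt_of_sq_le ?_
        linarith [Real.pi_gt_three]
      calc (√(2 * Real.pi * v))⁻¹ * Real.exp (-(x - 0) ^ 2 / (2 * v)) ≤ (√(2 * Real.pi * v))⁻¹ * 1 :=
            mul_le_mul_of_nonneg_left h4 (by positivity)
        _ ≤ 1 / (2 * √(v : ℝ)) := by rw [mul_one]; exact h5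
    have h6 : ∫ x in Icc (-L) L, (1 / (2 * √(v : ℝ))) = L / √(v : ℝ) := by
      rw [setIntegral_const, measureReal_def, Real.volume_Icc, ENNReal.toReal_ofReal (by linarith),
        smul_eq_mul]
      field_simp
      ring
    rw [h6] at h3
    exact ENNReal.toReal_le_of_le_ofReal (by positivity) (ENNReal.ofReal_le_ofReal h3)
  calc ∫ x, ‖ph μ x‖ ^ 2 ∂(gaussianReal 0 v)
      ≤ ∫ x, ((Icc (-L) L).indicator (fun _ => (1 : ℝ)) x + C ^ 2 * L ^ (-(3 / 4) : ℝ))
          ∂(gaussianReal 0 v) := by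
        refine integral_mono ?_ ?_ h1
        · refine Integrable.of_bound ph_meas.aestronglyMeasurable 1 (Eventually.of_forall fun x => ?_)
          rw [Real.norm_of_nonneg (by positivity)]
          exact pow_le_one₀ (norm_nonneg _) (ph_le x)
        · exact ((integrable_const (1 : ℝ)).indicator measurableSet_Icc).add (integrable_const _)
    _ = (gaussianReal 0 v).real (Icc (-L) L) + C ^ 2 * L ^ (-(3 / 4) : ℝ) := by
        rw [integral_add ((integrable_const (1 : ℝ)).indicator measurableSet_Icc)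
          (integrable_const _), integral_indicator measurableSet_Icc]
        simp
    _ ≤ _ := by linarith

end Pool.Agent.V11331.ST

end
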