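import Pool.Agent.V11331.ST.Indep
import Pool.Agent.V11331.ST.Energy

/-!
# The graph carries no measure with fast Fourier decay
-/

set_option autoImplicit false

open Filter Topology MeasureTheory ProbabilityTheory Set
open scoped ENNReal NNReal

noncomputable section

namespace Pool.Agent.V11331.ST

/-- the truncation at scale `n` -/
def wn (n : ℕ) (u : ℝ) : ℝ := min 1 (((16 : ℝ) ^ n) ^ 4 * |jm u|)

theorem wn_meas (n : ℕ) : Measurable (wn n) := by
  unfold wn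
  exact measurable_const.min (jm_meas.abs.const_mul _)

theorem wn_nonneg (n : ℕ) (u : ℝ) : 0 ≤ wn n u := le_min zero_le_one (by positivity)

theorem wn_eq (n : ℕ) (u : ℝ) : wn n u = w1 (((16 : ℝ) ^ n)⁻¹ * u) := by
  unfold wn w1
  rw [jm_scale (by positivity), abs_mul, abs_of_nonneg (a := ((16 : ℝ) ^ n) ^ 4) (by positivity)]

theorem wn_le (n : ℕ) (u : ℝ) : wn n u ≤ ((16 : ℝ) ^ n) ^ 4 * w1 u := by
  unfold wn w1
  have h1 : (1 : ℝ) ≤ ((16 : ℝ) ^ n) ^ 4 := one_le_pow₀ (one_le_pow₀ (by norm_num))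
  rcases le_total |jm u| 1 with h | h
  · rw [min_eq_right h]
    exact min_le_right _ _
  · rw [min_eq_left h, mul_one]
    exact (min_le_left _ _).trans h1

theorem wn_lint (n : ℕ) : ∫⁻ u, ENNReal.ofReal (wn n u) = ENNReal.ofReal (16 ^ n * ∫ u, w1 u) := by
  have h := Measure.integral_comp_mul_left w1 ((16 : ℝ) ^ n)⁻¹
  rw [inv_inv, abs_of_nonneg (by positivity), smul_eq_mul] at h
  have h2 : Integrable (wn n) := by
    have := w1_int.comp_mul_left' (R := ((16 : ℝ) ^ n)⁻¹) (by positivity)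
    refine this.congr (Eventually.of_forall fun u => ?_)
    exact (wn_eq n u).symm
  rw [← ofReal_integral_eq_lintegral_ofReal h2 (Eventually.of_forall (wn_nonneg n)), ← h]
  congr 1
  exact integral_congr_ae (Eventually.of_forall fun u => wn_eq n u)

/-- the number of cells at scale `n` -/
def Wn (n : ℕ) (ω : Om) : ℝ≥0∞ := S (fun y => ENNReal.ofReal (ti 0 1 y.1 * wn n y.2)) ω

theorem Wn_lint (n : ℕ) : ∫⁻ ω, Wn n ω ∂PP ≤ ENNReal.ofReal (16 ^ n * ∫ u, w1 u) := by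
  unfold Wn
  rw [lint_S (gd_meas (wn_meas n) 1)]
  refine (lint_prod_le (wn_meas n) 1).trans ?_
  rw [wn_lint, ENNReal.ofReal_one, one_mul]

theorem Wn_ae : ∀ᵐ ω ∂PP, ∀ᶠ n in atTop, Wn n ω ≤ ENNReal.ofReal (32 ^ n) := by
  have hm : ∀ n, Measurable (Wn n) := fun n => S_meas (gd_meas (wn_meas n) 1)
  have hc : 0 ≤ ∫ u, w1 u := integral_nonneg w1_nonneg
  have h1 : ∫⁻ ω, ∑' n, Wn n ω * ENNReal.ofReal ((1 / 32) ^ n) ∂PP ≠ ∞ := by
    rw [lintegral_tsum fun n => ((hm n).mul_const _).aemeasurable]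
    have h2 : ∀ n, ∫⁻ ω, Wn n ω * ENNReal.ofReal ((1 / 32) ^ n) ∂PP ≤
        ENNReal.ofReal ((1 / 2) ^ n * ∫ u, w1 u) := by
      intro n
      rw [lintegral_mul_const _ (hm n)]
      refine (mul_le_mul_left (Wn_lint n) _).trans ?_
      rw [← ENNReal.ofReal_mul (by positivity)]
      refine ENNReal.ofReal_le_ofReal (le_of_eq ?_)
      have : (1 / 2 : ℝ) ^ n = 16 ^ n * (1 / 32) ^ n := by
        rw [← mul_pow]
        norm_num
      rw [this]
      ring
    refine ne_top_of_le_ne_top ?_ (ENNReal.tsum_le_tsum h2)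
    have h3 : Summable fun n : ℕ => (1 / 2 : ℝ) ^ n * ∫ u, w1 u :=
      (summable_geometric_of_lt_one (by norm_num) (by norm_num)).mul_right _
    exact h3.tsum_ofReal_ne_top
  have h2 := ae_lt_top (Measurable.tsum fun n => (hm n).mul_const _) h1
  filter_upwards [h2] with ω hω
  have h3 := ENNReal.tendsto_atTop_zero_of_tsum_ne_top hω.ne
  have h4 : ∀ᶠ n in atTop, Wn n ω * ENNReal.ofReal ((1 / 32) ^ n) < 1 :=
    h3.eventually (gt_mem_nhds zero_lt_one)
  filter_upwards [h4] with n hn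
  have h5 : ENNReal.ofReal ((1 / 32) ^ n) * ENNReal.ofReal (32 ^ n) = 1 := by
    rw [← ENNReal.ofReal_mul (by positivity), ← mul_pow]
    norm_num
  calc Wn n ω = Wn n ω * ENNReal.ofReal ((1 / 32) ^ n) * ENNReal.ofReal (32 ^ n) := by
        rw [mul_assoc, h5, mul_one]
    _ ≤ 1 * ENNReal.ofReal (32 ^ n) := mul_le_mul_left hn.le _
    _ = _ := one_mul _

theorem Good.sum_w1 {ω : Om} (h : Good ω) (T : ℝ) :
    Summable fun i : Lb ω => ti 0 T (pt ω i).1 * w1 (pt ω i).2 := by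
  refine Summable.of_nonneg_of_le (fun i => mul_nonneg (ti_nonneg _ _ _) (w1_nonneg _))
    (fun i => ?_) (h.sum T)
  exact mul_le_mul_of_nonneg_left (min_le_right _ _) (ti_nonneg _ _ _)

theorem Good.sum_wn {ω : Om} (h : Good ω) (n : ℕ) (T : ℝ) :
    Summable fun i : Lb ω => ti 0 T (pt ω i).1 * wn n (pt ω i).2 := by
  refine Summable.of_nonneg_of_le (fun i => mul_nonneg (ti_nonneg _ _ _) (wn_nonneg _ _))
    (fun i => ?_) ((h.sum_w1 T).mul_left (((16 : ℝ) ^ n) ^ 4))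
  have := mul_le_mul_of_nonneg_left (wn_le n (pt ω i).2) (ti_nonneg 0 T (pt ω i).1)
  linarith

/-- the clock at scale `n` -/
def Wr (n : ℕ) (ω : Om) (t : ℝ) : ℝ := ∑' i : Lb ω, ti 0 t (pt ω i).1 * wn n (pt ω i).2

theorem Wr_mono {ω : Om} (h : Good ω) (n : ℕ) : Monotone (Wr n ω) := by
  intro s t hst
  unfold Wr
  refine (h.sum_wn n s).tsum_le_tsum (fun i => ?_) (h.sum_wn n t)
  exact mul_le_mul_of_nonneg_right (ti_mono hst _) (wn_nonneg _ _)

theorem Wr_nonneg (n : ℕ) (ω : Om) (t : ℝ) : 0 ≤ Wr n ω t :=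
  tsum_nonneg fun i => mul_nonneg (ti_nonneg _ _ _) (wn_nonneg _ _)

theorem Wr_one (n : ℕ) (ω : Om) : Wr n ω 1 = (Wn n ω).toReal := by
  unfold Wr Wn
  rw [S_eq, ENNReal.tsum_toReal_eq fun _ => ENNReal.ofReal_ne_top]
  refine tsum_congr fun i => ?_
  rw [ENNReal.toReal_ofReal (mul_nonneg (ti_nonneg _ _ _) (wn_nonneg _ _))]

theorem small {ω : Om} (h : Good ω) (n : ℕ) {s t : ℝ} (hs : 0 ≤ s) (hst : s ≤ t)
    (hw : Wr n ω t - Wr n ω s < 1) : |X t ω - X s ω| ≤ cc * (1 / ((16 : ℝ) ^ n) ^ 4) := by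
  have h1 : Wr n ω t - Wr n ω s = ∑' i : Lb ω, ti s t (pt ω i).1 * wn n (pt ω i).2 := by
    unfold Wr
    rw [← (h.sum_wn n t).tsum_sub (h.sum_wn n s)]
    refine tsum_congr fun i => ?_
    rw [← sub_mul, ti_sub hs hst]
  have hsum : Summable fun i : Lb ω => ti s t (pt ω i).1 * wn n (pt ω i).2 := by
    refine ((h.sum_wn n t).sub (h.sum_wn n s)).congr fun i => ?_
    rw [← sub_mul, ti_sub hs hst]
  rw [h1] at hw
  have hnn : ∀ i : Lb ω, 0 ≤ ti s t (pt ω i).1 * wn n (pt ω i).2 := fun i =>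
    mul_nonneg (ti_nonneg _ _ _) (wn_nonneg _ _)
  have h2 : ∀ i : Lb ω, ti s t (pt ω i).1 * wn n (pt ω i).2 =
      ((16 : ℝ) ^ n) ^ 4 * |ti s t (pt ω i).1 * jm (pt ω i).2| := by
    intro i
    rw [abs_mul, abs_of_nonneg (ti_nonneg _ _ _)]
    have h3 : ti s t (pt ω i).1 * wn n (pt ω i).2 < 1 :=
      lt_of_le_of_lt (hsum.le_tsum i fun j _ => hnn j) hw
    by_cases h4 : (pt ω i).1 ∈ Ioc s t
    · rw [ti_of_mem h4, one_mul] at h3 ⊢
      rw [one_mul]
      unfold wn at h3 ⊢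
      rcases le_total 1 (((16 : ℝ) ^ n) ^ 4 * |jm (pt ω i).2|) with h5 | h5
      · rw [min_eq_left h5] at h3
        exact absurd h3 (lt_irrefl _)
      · rw [min_eq_right h5]
    · rw [ti_of_not h4]
      ring
  rw [X_sub h hs hst, abs_mul, abs_of_pos cc_pos]
  refine mul_le_mul_of_nonneg_left ?_ cc_pos.le
  have hsa := h.sum_ti (b := t) hs
  have h3 : |∑' i : Lb ω, ti s t (pt ω i).1 * jm (pt ω i).2| ≤
      ∑' i : Lb ω, |ti s t (pt ω i).1 * jm (pt ω i).2| := by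
    have := norm_tsum_le_tsum_norm (f := fun i : Lb ω => ti s t (pt ω i).1 * jm (pt ω i).2) hsa
    exact this
  refine h3.trans ?_
  rw [tsum_congr h2, tsum_mul_left] at hw
  rw [le_div_iff₀ (by positivity), mul_comm]
  exact hw.le

/-- the graph -/
def graph (ω : Om) : Set (ℝ × ℝ) := {p : ℝ × ℝ | p.1 ∈ Set.Icc (0 : ℝ) 1 ∧ p.2 = X p.1 ω}

theorem no_decay {ω : Om} (h : Good ω) (hW : ∀ᶠ n in atTop, Wn n ω ≤ ENNReal.ofReal (32 ^ n)) :
    ¬ ∃ (μ : Measure (ℝ × ℝ)) (K : Set (ℝ × ℝ)),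
      IsProbabilityMeasure μ ∧ IsCompact K ∧ K ⊆ graph ω ∧ μ Kᶜ = 0 ∧
        ∃ C : ℝ, ∀ x : ℝ, 1 ≤ |x| → ‖ph μ x‖ ≤ C * |x| ^ (-(3 / 4) / 2 : ℝ) := by
  rintro ⟨μ, K, hμ, hK, hKg, hμK, C, hC⟩
  have key : ∀ᶠ n : ℕ in atTop, Real.exp (-(1 / 2)) ≤ 2 * (cc + C ^ 2) * (1 / 2) ^ n := by
    filter_upwards [hW] with n hn
    have hb : Wr n ω 1 ≤ 32 ^ n := by
      rw [Wr_one]
      exact ENNReal.toReal_le_of_le_ofReal (by positivity) hn
    set k16 : ℝ := ((16 : ℝ) ^ n) ^ 4 with hk16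
    have hk0 : 0 < k16 := by positivity
    set v : ℝ≥0 := ⟨(k16 / cc) ^ 2, by positivity⟩ with hv
    have hvv : (v : ℝ) = (k16 / cc) ^ 2 := rfl
    have hc0 := cc_pos
    have hv0 : v ≠ 0 := by
      intro h1
      have h2 : (v : ℝ) = 0 := by rw [h1]; rfl
      rw [hvv] at h2
      have : 0 < (k16 / cc) ^ 2 := by positivity
      linarith
    set N : ℕ := ⌊Wr n ω 1⌋₊ + 1 with hN
    set A : ℕ → Set (ℝ × ℝ) := fun k => K ∩ {p | ⌊Wr n ω p.1⌋₊ = k} with hA
    have hAm : ∀ k, MeasurableSet (A k) := by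
      intro k
      refine hK.measurableSet.inter ?_
      have h1 : Measurable fun p : ℝ × ℝ => ⌊Wr n ω p.1⌋₊ :=
        Nat.measurable_floor.comp ((Wr_mono h n).measurable.comp measurable_fst)
      exact h1 (measurableSet_singleton k)
    have hd : Pairwise fun k l => Disjoint (A k) (A l) := by
      intro k l hkl
      rw [Set.disjoint_left]
      rintro p ⟨-, hp1⟩ ⟨-, hp2⟩
      exact hkl (hp1.symm.trans hp2)
    have hcov : μ (⋃ k ∈ Finset.range N, A k)ᶜ = 0 := by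
      refine measure_mono_null ?_ hμK
      rw [compl_subset_compl]
      intro p hp
      simp only [mem_iUnion, exists_prop, Finset.mem_range]
      refine ⟨⌊Wr n ω p.1⌋₊, ?_, hp, rfl⟩
      rw [hN, Nat.lt_add_one_iff]
      exact Nat.floor_le_floor (Wr_mono h n (hKg hp).1.2)
    have hcell : ∀ k, ∀ p ∈ A k, ∀ r ∈ A k, (v : ℝ) * (p.2 - r.2) ^ 2 ≤ 1 := by
      have h1 : ∀ p ∈ K, ∀ r ∈ K, ⌊Wr n ω p.1⌋₊ = ⌊Wr n ω r.1⌋₊ → p.1 ≤ r.1 →
          (v : ℝ) * (p.2 - r.2) ^ 2 ≤ 1 := by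
        intro p hp r hr hpr hle
        have h2 : Wr n ω r.1 - Wr n ω p.1 < 1 := by
          have e1 := Nat.floor_le (Wr_nonneg n ω p.1)
          have e2 := Nat.lt_floor_add_one (Wr n ω r.1)
          rw [← hpr] at e2
          linarith
        have h3 := small h n (hKg hp).1.1 hle h2
        rw [← (hKg hp).2, ← (hKg hr).2] at h3
        have h4 : |r.2 - p.2| ≤ cc / k16 := by
          refine h3.trans (le_of_eq ?_)
          rw [mul_one_div]
        rw [hvv]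
        have h5 : (p.2 - r.2) ^ 2 ≤ (cc / k16) ^ 2 := by
          rw [← sq_abs, abs_sub_comm]
          exact pow_le_pow_left₀ (abs_nonneg _) h4 2
        calc (k16 / cc) ^ 2 * (p.2 - r.2) ^ 2 ≤ (k16 / cc) ^ 2 * (cc / k16) ^ 2 :=
              mul_le_mul_of_nonneg_left h5 (by positivity)
          _ = 1 := by
              field_simp
      rintro k p ⟨hp, hpk⟩ r ⟨hr, hrk⟩
      rcases le_total p.1 r.1 with h2 | h2
      · exact h1 p hp r hr (hpk.trans hrk.symm) h2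
      · have := h1 r hr p hp (hrk.trans hpk.symm) h2
        have e : (p.2 - r.2) ^ 2 = (r.2 - p.2) ^ 2 := by ring
        rw [e]
        exact this
    have hlow := energy_lower (μ := μ) v A hAm hd N hcov hcell
    have hup := energy_upper (μ := μ) hv0 (C := C) (L := 256 ^ n) (one_le_pow₀ (by norm_num)) hC
    have hsq : √(v : ℝ) = k16 / cc := by
      rw [hvv, Real.sqrt_sq (by positivity)]
    have hk : k16 = 65536 ^ n := by
      rw [hk16, ← pow_mul, mul_comm n 4, pow_mul]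
      norm_num
    have hL1 : (256 : ℝ) ^ n / √(v : ℝ) = cc * (1 / 256) ^ n := by
      rw [hsq, hk]
      have : (65536 : ℝ) ^ n = 256 ^ n * 256 ^ n := by
        rw [← mul_pow]
        norm_num
      rw [this, one_div, inv_pow]
      field_simp
    have hL2 : ((256 : ℝ) ^ n) ^ (-(3 / 4) : ℝ) = (1 / 64) ^ n := by
      rw [← Real.rpow_natCast, ← Real.rpow_mul (by norm_num), mul_comm, Real.rpow_mul (by norm_num),
        Real.rpow_natCast]
      congr 1
      have : (256 : ℝ) = 2 ^ (8 : ℝ) := by norm_num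
      rw [this, ← Real.rpow_mul (by norm_num)]
      have : (8 : ℝ) * -(3 / 4) = -((6 : ℕ) : ℝ) := by norm_num
      rw [this, Real.rpow_neg (by norm_num), Real.rpow_natCast]
      norm_num
    rw [hL1, hL2] at hup
    have hNr : (N : ℝ) ≤ 2 * 32 ^ n := by
      rw [hN]
      push_cast
      have e1 := Nat.floor_le (Wr_nonneg n ω 1)
      have e2 : (1 : ℝ) ≤ 32 ^ n := one_le_pow₀ (by norm_num)
      linarith
    have hE0 : 0 ≤ ∫ z, Ker v z ∂(μ.prod μ) := integral_nonneg fun z => (Ker_pos v z).le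
    have h256 : (1 / 256 : ℝ) ^ n ≤ (1 / 64) ^ n :=
      pow_le_pow_left₀ (by norm_num) (by norm_num) n
    have h64 : (32 : ℝ) ^ n * (1 / 64) ^ n = (1 / 2) ^ n := by
      rw [← mul_pow]
      norm_num
    calc Real.exp (-(1 / 2)) ≤ N * ∫ z, Ker v z ∂(μ.prod μ) := hlow
      _ ≤ (2 * 32 ^ n) * ∫ z, Ker v z ∂(μ.prod μ) := mul_le_mul_of_nonneg_right hNr hE0
      _ ≤ (2 * 32 ^ n) * (cc * (1 / 256) ^ n + C ^ 2 * (1 / 64) ^ n) :=
          mul_le_mul_of_nonneg_left hup (by positivity)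
      _ ≤ (2 * 32 ^ n) * (cc * (1 / 64) ^ n + C ^ 2 * (1 / 64) ^ n) := by
          refine mul_le_mul_of_nonneg_left ?_ (by positivity)
          have := mul_le_mul_of_nonneg_left h256 hc0.le
          linarith
      _ = 2 * (cc + C ^ 2) * (32 ^ n * (1 / 64) ^ n) := by ring
      _ = _ := by rw [h64]
  have hlim : Tendsto (fun n : ℕ => 2 * (cc + C ^ 2) * (1 / 2 : ℝ) ^ n) atTop
      (𝓝 (2 * (cc + C ^ 2) * 0)) :=
    (tendsto_pow_atTop_nhds_zero_of_lt_one (by norm_num) (by norm_num)).const_mul _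
  rw [mul_zero] at hlim
  have := ge_of_tendsto hlim key
  exact absurd this (not_le.2 (Real.exp_pos _))

end Pool.Agent.V11331.ST

end
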