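import Mathlib

/-!
# A Poisson point process with Lebesgue intensity on a half plane

The half plane `[0, ∞) × ℝ` is cut into unit boxes; the boxes carry independent Poisson(1) numbers
of independent uniform points.
-/

set_option autoImplicit false

open Filter Topology MeasureTheory ProbabilityTheory Set
open scoped ENNReal NNReal

noncomputable section

namespace Pool.Agent.V11331.ST

/-- integral of a finite product over an infinite product space -/
theorem int_prodC {ι : Type*} {X : ι → Type*} [∀ i, MeasurableSpace (X i)]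
    (μ : ∀ i, Measure (X i)) [∀ i, IsProbabilityMeasure (μ i)] (s : Finset ι)
    (f : ∀ i, X i → ℂ) (hf : ∀ i, Measurable (f i)) :
    ∫ x, ∏ i ∈ s, f i (x i) ∂(Measure.infinitePi μ) = ∏ i ∈ s, ∫ y, f i y ∂(μ i) := by
  have h1 := integral_restrict_infinitePi (μ := μ) (s := s)
    (f := fun y : (Π i : s, X i) => ∏ i : s, f i (y i)) (by
      refine Measurable.aestronglyMeasurable ?_
      refine Finset.measurable_fun_prod _ fun i _ => ?_
      exact (hf i).comp (measurable_pi_apply i))
  have h2 := integral_fintype_prod_eq_prod (ι := s) (E := fun i => X i) (𝕜 := ℂ)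
    (fun i => f i) (μ := fun i => μ i)
  rw [h2] at h1
  rw [← Finset.prod_coe_sort s (fun i => ∫ y, f i y ∂(μ i)), ← h1]
  congr 1
  funext x
  exact (Finset.prod_coe_sort s (fun i => f i (x i))).symm

/-- index of a box: time cell and mark cell -/
abbrev Ix := ℕ × ℤ

/-- a point: time and mark -/
abbrev Pt := ℝ × ℝ

/-- the content of a box: the number of points and the points -/
abbrev Blk := ℕ × (ℕ → Pt)

/-- the space of configurations -/
abbrev Om := Ix → Blk

/-- the boxes -/
def box (b : Ix) : Set Pt := Ico (b.1 : ℝ) (b.1 + 1) ×ˢ Ico (b.2 : ℝ) (b.2 + 1)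

theorem box_meas (b : Ix) : MeasurableSet (box b) := measurableSet_Ico.prod measurableSet_Ico

/-- the uniform distribution on a box -/
def ub (b : Ix) : Measure Pt := volume.restrict (box b)

instance (b : Ix) : IsProbabilityMeasure (ub b) := by
  constructor
  unfold ub box
  rw [Measure.restrict_apply_univ, Measure.volume_eq_prod, Measure.prod_prod]
  simp

/-- the law of the content of a box -/
def blk (b : Ix) : Measure Blk :=
  (poissonMeasure 1).prod (Measure.infinitePi fun _ : ℕ => ub b)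

instance (b : Ix) : IsProbabilityMeasure (blk b) := by
  unfold blk
  infer_instance

/-- the law of the configuration -/
def PP : Measure Om := Measure.infinitePi blk

instance : IsProbabilityMeasure PP := by
  unfold PP
  infer_instance

/-- the product of the values at the points of a block -/
def hb (g : Pt → ℂ) (b : Blk) : ℂ := ∏ l ∈ Finset.range b.1, g (b.2 l)

theorem hb_meas {g : Pt → ℂ} (hg : Measurable g) : Measurable (hb g) := by
  unfold hb
  refine measurable_from_prod_countable_right fun n => ?_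
  show Measurable fun y : ℕ → Pt => ∏ l ∈ Finset.range n, g (y l)
  refine Finset.measurable_fun_prod _ fun l _ => ?_
  exact hg.comp (measurable_pi_apply l)

theorem hb_bd {g : Pt → ℂ} (h1 : ∀ y, ‖g y‖ ≤ 1) (b : Blk) : ‖hb g b‖ ≤ 1 := by
  unfold hb
  rw [norm_prod]
  exact Finset.prod_le_one (fun _ _ => norm_nonneg _) fun _ _ => h1 _

theorem int_hb (b : Ix) {g : Pt → ℂ} (hg : Measurable g) (h1 : ∀ y, ‖g y‖ ≤ 1) :
    ∫ x, hb g x ∂(blk b) = Complex.exp (∫ y, (g y - 1) ∂(ub b)) := by
  have hgp : Integrable g (ub b) := Integrable.of_bound hg.aestronglyMeasurable 1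
    (Eventually.of_forall fun y => h1 y)
  have hbi : Integrable (hb g) (blk b) := Integrable.of_bound
    (hb_meas hg).aestronglyMeasurable 1 (Eventually.of_forall fun x => hb_bd h1 x)
  unfold blk at hbi ⊢
  rw [integral_prod _ hbi]
  set c : ℂ := ∫ y, g y ∂(ub b) with hc
  have e1 : ∀ n : ℕ, ∫ y, hb g (n, y) ∂(Measure.infinitePi fun _ : ℕ => ub b) = c ^ n := by
    intro n
    unfold hb
    simp only
    rw [int_prodC (fun _ : ℕ => ub b) (Finset.range n) (fun _ => g) fun _ => hg]
    simp [hc]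
  simp only [e1]
  rw [integral_poissonMeasure]
  have e2 : ∀ n : ℕ, (Real.exp (-((1 : ℝ≥0) : ℝ)) * ((1 : ℝ≥0) : ℝ) ^ n / (n.factorial : ℝ)) •
      c ^ n = Complex.exp (-1) * (c ^ n / (n.factorial : ℂ)) := by
    intro n
    rw [Complex.real_smul]
    push_cast
    rw [one_pow]
    ring
  simp only [e2]
  rw [tsum_mul_left]
  have e3 : ∑' n : ℕ, c ^ n / (n.factorial : ℂ) = Complex.exp c := by
    rw [Complex.exp_eq_exp_ℂ, NormedSpace.exp_eq_tsum_div]
  rw [e3, ← Complex.exp_add]
  congr 1
  rw [integral_sub hgp (integrable_const _), ← hc]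
  simp
  ring

/-- the sum of `f` over the points of a block -/
def sb (f : Pt → ℝ≥0∞) (x : Blk) : ℝ≥0∞ := ∑ l ∈ Finset.range x.1, f (x.2 l)

theorem sb_meas {f : Pt → ℝ≥0∞} (hf : Measurable f) : Measurable (sb f) := by
  unfold sb
  refine measurable_from_prod_countable_right fun n => ?_
  show Measurable fun y : ℕ → Pt => ∑ l ∈ Finset.range n, f (y l)
  refine Finset.measurable_fun_sum _ fun l _ => ?_
  exact hf.comp (measurable_pi_apply l)

theorem lint_pois : ∫⁻ n, (n : ℝ≥0∞) ∂(poissonMeasure 1) = 1 := by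
  have hs : Summable (fun n : ℕ => Real.exp (-1) * 1 ^ n / (n.factorial : ℝ) * (n : ℝ)) := by
    have h := (Real.summable_pow_div_factorial 1).mul_left (Real.exp (-1))
    rw [← summable_nat_add_iff 1]
    refine h.congr fun n => ?_
    rw [Nat.factorial_succ]
    push_cast
    have h1 : (n.factorial : ℝ) ≠ 0 := by positivity
    field_simp
    simp
  have hv : ∑' n : ℕ, Real.exp (-1) * 1 ^ n / (n.factorial : ℝ) * (n : ℝ) = 1 := by
    rw [hs.tsum_eq_zero_add]
    have h3 : ∀ n : ℕ, Real.exp (-1) * 1 ^ (n + 1) / ((n + 1).factorial : ℝ) * ((n + 1 : ℕ) : ℝ) =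
        Real.exp (-1) * (1 ^ n / (n.factorial : ℝ)) := by
      intro n
      rw [Nat.factorial_succ]
      push_cast
      have h1 : (n.factorial : ℝ) ≠ 0 := by positivity
      field_simp
      simp
    simp only [h3]
    rw [tsum_mul_left]
    have e3 : ∑' n : ℕ, (1 : ℝ) ^ n / (n.factorial : ℝ) = Real.exp 1 := by
      rw [Real.exp_eq_exp_ℝ, NormedSpace.exp_eq_tsum_div]
    rw [e3, ← Real.exp_add]
    simp
  have hi : Integrable (fun n : ℕ => (n : ℝ)) (poissonMeasure 1) := by
    rw [integrable_poissonMeasure_iff]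
    refine hs.congr fun n => ?_
    simp
  have h := integral_poissonMeasure 1 (fun n : ℕ => (n : ℝ))
  have h2 : ∫ n, (n : ℝ) ∂(poissonMeasure 1) = 1 := by
    rw [h, ← hv]
    refine tsum_congr fun n => ?_
    simp
  have h4 := ofReal_integral_eq_lintegral_ofReal hi (Eventually.of_forall fun n => Nat.cast_nonneg n)
  rw [h2] at h4
  simp only [ENNReal.ofReal_natCast, ENNReal.ofReal_one] at h4
  exact h4.symm

theorem lint_sb (b : Ix) {f : Pt → ℝ≥0∞} (hf : Measurable f) :
    ∫⁻ x, sb f x ∂(blk b) = ∫⁻ y, f y ∂(ub b) := by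
  unfold blk
  rw [lintegral_prod _ (sb_meas hf).aemeasurable]
  have e1 : ∀ n : ℕ, ∫⁻ y, sb f (n, y) ∂(Measure.infinitePi fun _ : ℕ => ub b) =
      n * ∫⁻ y, f y ∂(ub b) := by
    intro n
    unfold sb
    simp only
    rw [lintegral_finsetSum (f := fun (l : ℕ) (y : ℕ → Pt) => f (y l)) _
      fun l _ => hf.comp (measurable_pi_apply l)]
    have : ∀ l ∈ Finset.range n, ∫⁻ y : ℕ → Pt, f (y l) ∂(Measure.infinitePi fun _ : ℕ => ub b) =
        ∫⁻ y, f y ∂(ub b) := by
      intro l _
      exact (measurePreserving_eval_infinitePi (fun _ : ℕ => ub b) l).lintegral_comp hf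
    rw [Finset.sum_congr rfl this]
    simp
  simp only [e1]
  rw [lintegral_mul_const _ (by fun_prop), lint_pois, one_mul]

/-- the sum of `f` over all points -/
def S (f : Pt → ℝ≥0∞) (ω : Om) : ℝ≥0∞ := ∑' b, sb f (ω b)

theorem S_meas {f : Pt → ℝ≥0∞} (hf : Measurable f) : Measurable (S f) := by
  unfold S
  exact Measurable.ennreal_tsum fun b => (sb_meas hf).comp (measurable_pi_apply b)

/-- the half plane -/
def hp : Set Pt := Ici 0 ×ˢ univ

theorem iUnion_box : ⋃ b, box b = hp := by
  ext ⟨s, u⟩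
  simp only [mem_iUnion, box, hp, mem_prod, mem_Ico, mem_Ici, mem_univ, and_true, Prod.exists]
  constructor
  · rintro ⟨m, j, h, -⟩
    exact le_trans (Nat.cast_nonneg m) h.1
  · intro h
    exact ⟨⌊s⌋₊, ⌊u⌋, ⟨Nat.floor_le h, Nat.lt_floor_add_one s⟩, Int.floor_le u,
      Int.lt_floor_add_one u⟩

theorem box_disj : Pairwise fun b c => Disjoint (box b) (box c) := by
  rintro ⟨m, j⟩ ⟨m', j'⟩ h
  rw [Set.disjoint_left]
  rintro ⟨s, u⟩ h1 h2
  simp only [box, mem_prod, mem_Ico] at h1 h2
  apply h
  have e1 : m = m' := by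
    have a1 : (m : ℝ) < m' + 1 := lt_of_le_of_lt h1.1.1 h2.1.2
    have a2 : (m' : ℝ) < m + 1 := lt_of_le_of_lt h2.1.1 h1.1.2
    have b1 : m < m' + 1 := by exact_mod_cast a1
    have b2 : m' < m + 1 := by exact_mod_cast a2
    omega
  have e2 : j = j' := by
    have a1 : (j : ℝ) < j' + 1 := lt_of_le_of_lt h1.2.1 h2.2.2
    have a2 : (j' : ℝ) < j + 1 := lt_of_le_of_lt h2.2.1 h1.2.2
    have b1 : j < j' + 1 := by exact_mod_cast a1
    have b2 : j' < j + 1 := by exact_mod_cast a2
    omega
  rw [e1, e2]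

/-- Campbell's formula -/
theorem lint_S {f : Pt → ℝ≥0∞} (hf : Measurable f) :
    ∫⁻ ω, S f ω ∂PP = ∫⁻ y in hp, f y := by
  unfold S
  rw [lintegral_tsum (f := fun (b : Ix) (ω : Om) => sb f (ω b))
    fun b => ((sb_meas hf).comp (measurable_pi_apply b)).aemeasurable]
  rw [← iUnion_box, lintegral_iUnion box_meas box_disj]
  refine tsum_congr fun b => ?_
  have h := (measurePreserving_eval_infinitePi blk b).lintegral_comp (sb_meas hf)
  exact h.trans (lint_sb b hf)

end Pool.Agent.V11331.ST

end
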