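import Pool.Agent.V11331.ST.Proc

/-!
# Independence of the increments and regularity of the paths
-/

set_option autoImplicit false

open Filter Topology MeasureTheory ProbabilityTheory Set
open scoped ENNReal NNReal

noncomputable section

namespace Pool.Agent.V11331.ST

theorem phi_sum {n : ℕ} {t : Fin (n + 1) → ℝ} (hm : Monotone t) (φ : ℝ → ℝ) (h0 : φ 0 = 0)
    (c : Fin n → ℝ) (s : ℝ) :
    φ (∑ k, c k * ti (t k.castSucc) (t k.succ) s) =
      ∑ k, φ (c k) * ti (t k.castSucc) (t k.succ) s := by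
  by_cases h : ∃ k : Fin n, s ∈ Ioc (t k.castSucc) (t k.succ)
  · obtain ⟨k, hk⟩ := h
    have h1 : ∀ l : Fin n, l ≠ k → ti (t l.castSucc) (t l.succ) s = 0 := by
      intro l hl
      refine ti_of_not fun h2 => ?_
      rcases lt_or_gt_of_ne hl with h3 | h3
      · have h4 : t l.succ ≤ t k.castSucc := hm (by
          rw [Fin.le_def, Fin.val_succ, Fin.val_castSucc]
          exact h3)
        exact absurd (lt_of_lt_of_le hk.1 h2.2) (not_lt.2 h4)
      · have h4 : t k.succ ≤ t l.castSucc := hm (by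
          rw [Fin.le_def, Fin.val_succ, Fin.val_castSucc]
          exact h3)
        exact absurd (lt_of_lt_of_le h2.1 hk.2) (not_lt.2 h4)
    rw [Finset.sum_eq_single k (fun l _ hl => by rw [h1 l hl, mul_zero])
        (fun h => absurd (Finset.mem_univ k) h),
      Finset.sum_eq_single k (fun l _ hl => by rw [h1 l hl, mul_zero])
        (fun h => absurd (Finset.mem_univ k) h), ti_of_mem hk, mul_one, mul_one]
  · push Not at h
    have h1 : ∀ l : Fin n, ti (t l.castSucc) (t l.succ) s = 0 := fun l => ti_of_not (h l)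
    simp [h1, h0]

/-- the joint characteristic function of the increments -/
theorem char_joint {n : ℕ} {t : Fin (n + 1) → ℝ} (ht0 : 0 ≤ t 0) (hm : Monotone t)
    (ξ : Fin n → ℝ) :
    ∫ ω, Complex.exp (((∑ k, ξ k * (X (t k.succ) ω - X (t k.castSucc) ω) : ℝ) : ℂ) *
        Complex.I) ∂PP =
      ((Real.exp (∑ k, -(t k.succ - t k.castSucc) * |ξ k| ^ (1 / 4 : ℝ)) : ℝ) : ℂ) := by
  obtain ⟨g, hg⟩ : ∃ g : ℝ → ℝ, ∀ s, g s =
    ∑ k, (cc * ξ k) * ti (t k.castSucc) (t k.succ) s := ⟨_, fun _ => rfl⟩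
  have hk0 : ∀ k : Fin n, 0 ≤ t k.castSucc := fun k => ht0.trans (hm (Fin.zero_le _))
  have hkk : ∀ k : Fin n, t k.castSucc ≤ t k.succ := fun k => hm (Fin.castSucc_le_succ k)
  have hgm : Measurable g := by
    rw [show g = fun s => ∑ k, (cc * ξ k) * ti (t k.castSucc) (t k.succ) s from funext hg]
    exact Finset.measurable_fun_sum _ fun k _ => (ti_meas _ _).const_mul _
  have hgM : ∀ s, |g s| ≤ ∑ k, |cc * ξ k| := by
    intro s
    rw [hg]
    refine (Finset.abs_sum_le_sum_abs _ _).trans (Finset.sum_le_sum fun k _ => ?_)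
    rw [abs_mul, abs_of_nonneg (ti_nonneg _ _ s)]
    exact mul_le_of_le_one_right (abs_nonneg _) (ti_le_one _ _ _)
  have hgT : ∀ s, s ∉ Ioc 0 (t (Fin.last n)) → g s = 0 := by
    intro s hs
    rw [hg]
    refine Finset.sum_eq_zero fun k _ => ?_
    rw [ti_of_not, mul_zero]
    intro h
    exact hs ⟨lt_of_le_of_lt (hk0 k) h.1, h.2.trans (hm (Fin.le_last _))⟩
  have h1 : ∀ᵐ ω ∂PP, Complex.exp
      (((∑ k, ξ k * (X (t k.succ) ω - X (t k.castSucc) ω) : ℝ) : ℂ) * Complex.I) =
      Complex.exp ((R (fun y => g y.1 * jm y.2) ω : ℂ) * Complex.I) := by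
    filter_upwards [good_ae] with ω hω
    have hsg : Summable fun i : Lb ω => |(fun y : Pt => g y.1 * jm y.2) (pt ω i)| :=
      hω.sum_g hgM hgT
    have hR : R (fun y => g y.1 * jm y.2) ω = ∑' i : Lb ω, g (pt ω i).1 * jm (pt ω i).2 :=
      R_eq hsg
    rw [hR]
    congr 3
    have h2 : ∀ i : Lb ω, g (pt ω i).1 * jm (pt ω i).2 =
        ∑ k, (cc * ξ k) * (ti (t k.castSucc) (t k.succ) (pt ω i).1 * jm (pt ω i).2) := by
      intro i
      generalize pt ω i = p
      rw [hg, Finset.sum_mul]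
      refine Finset.sum_congr rfl fun k _ => ?_
      rw [mul_assoc]
    rw [tsum_congr h2]
    rw [Summable.tsum_finsetSum fun k _ => ((hω.sum_ti (hk0 k)).of_abs).mul_left _]
    refine Finset.sum_congr rfl fun k _ => ?_
    rw [tsum_mul_left, X_sub hω (hk0 k) (hkk k)]
    ring
  rw [integral_congr_ae h1, expG hgm hgM hgT]
  congr 2
  have h3 : ∀ s, |g s| ^ (1 / 4 : ℝ) =
      ∑ k, |cc * ξ k| ^ (1 / 4 : ℝ) * ti (t k.castSucc) (t k.succ) s := by
    intro s
    rw [hg]
    exact phi_sum hm (fun x => |x| ^ (1 / 4 : ℝ))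
      (by simp only [abs_zero]; exact Real.zero_rpow (by norm_num)) (fun k => cc * ξ k) s
  simp only [h3]
  rw [integral_finsetSum _ fun k _ => ti_int.const_mul _, Finset.mul_sum, ← Finset.sum_neg_distrib]
  refine Finset.sum_congr rfl fun k _ => ?_
  rw [integral_const_mul, int_ti (hkk k), abs_mul, Real.mul_rpow (abs_nonneg _) (abs_nonneg _),
    abs_of_pos cc_pos]
  linear_combination (-(t k.succ - t k.castSucc) * |ξ k| ^ (1 / 4 : ℝ)) * kap_cc

theorem indep_incr (n : ℕ) (t : Fin (n + 1) → ℝ) (ht0 : 0 ≤ t 0) (hm : Monotone t) :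
    iIndepFun (fun (i : Fin n) (ω : Om) => X (t i.succ) ω - X (t i.castSucc) ω) PP := by
  have hmeas : ∀ i : Fin n, Measurable fun ω => X (t i.succ) ω - X (t i.castSucc) ω :=
    fun i => (X_meas _).sub (X_meas _)
  rw [iIndepFun_iff_charFun_pi fun i => (hmeas i).aemeasurable]
  intro ξ
  have hk0 : ∀ k : Fin n, 0 ≤ t k.castSucc := fun k => ht0.trans (hm (Fin.zero_le _))
  have hkk : ∀ k : Fin n, t k.castSucc ≤ t k.succ := fun k => hm (Fin.castSucc_le_succ k)
  have h1 : ∀ i : Fin n, charFun (PP.map fun ω => X (t i.succ) ω - X (t i.castSucc) ω) (ξ i) =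
      ((Real.exp (-(t i.succ - t i.castSucc) * |ξ i| ^ (1 / 4 : ℝ)) : ℝ) : ℂ) := by
    intro i
    rw [charFun_apply, integral_map (hmeas i).aemeasurable (by fun_prop)]
    rw [← char_incr (hk0 i) (hkk i) (ξ i)]
    rfl
  have hjm : Measurable fun ω => WithLp.toLp 2 fun x : Fin n =>
      X (t x.succ) ω - X (t x.castSucc) ω := by
    exact (WithLp.measurable_toLp 2 _).comp (measurable_pi_lambda _ hmeas)
  rw [Finset.prod_congr rfl fun i _ => h1 i, charFun_apply,
    integral_map hjm.aemeasurable (by fun_prop)]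
  rw [← Complex.ofReal_prod, ← Real.exp_sum, ← char_joint ht0 hm (fun k => ξ k)]
  refine integral_congr_ae (Eventually.of_forall fun ω => ?_)
  simp only
  congr 3

/-- the left limits of the indicator -/
theorem ti_left (t x : ℝ) : ∀ᶠ s in 𝓝[<] t, ti 0 s x = (Ioo 0 t).indicator (fun _ => (1 : ℝ)) x := by
  by_cases h : x ∈ Ioo 0 t
  · rw [indicator_of_mem h]
    have : Ioo x t ∈ 𝓝[<] t := Ioo_mem_nhdsLT h.2
    filter_upwards [this] with s hs
    exact ti_of_mem ⟨h.1, hs.1.le⟩
  · rw [indicator_of_notMem h]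
    filter_upwards [self_mem_nhdsWithin] with s hs
    exact ti_of_not fun h2 => h ⟨h2.1, lt_of_le_of_lt h2.2 hs⟩

theorem ti_right (t x : ℝ) : ∀ᶠ s in 𝓝[≥] t, ti 0 s x = ti 0 t x := by
  by_cases h : x ∈ Ioc 0 t
  · rw [ti_of_mem h]
    filter_upwards [self_mem_nhdsWithin] with s hs
    exact ti_of_mem ⟨h.1, h.2.trans hs⟩
  · rw [ti_of_not h]
    by_cases h1 : x ≤ 0
    · exact Eventually.of_forall fun s => ti_of_not fun h2 => absurd h2.1 (not_lt.2 h1)
    · have h2 : t < x := by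
        by_contra h3
        exact h ⟨not_le.1 h1, not_lt.1 h3⟩
      have : Iio x ∈ 𝓝[≥] t := mem_nhdsWithin_of_mem_nhds (Iio_mem_nhds h2)
      filter_upwards [this] with s hs
      exact ti_of_not fun h4 => absurd h4.2 (not_le.2 hs)

theorem cadlag {ω : Om} (h : Good ω) (t : ℝ) :
    ContinuousWithinAt (fun s => X s ω) (Ici t) t ∧
      ∃ l : ℝ, Tendsto (fun s => X s ω) (𝓝[<] t) (𝓝 l) := by
  have hb : ∀ s ≤ t + 1, ∀ i : Lb ω, ‖ti 0 s (pt ω i).1 * jm (pt ω i).2‖ ≤
      ti 0 (t + 1) (pt ω i).1 * |jm (pt ω i).2| := by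
    intro s hs i
    rw [norm_mul, Real.norm_of_nonneg (ti_nonneg _ _ _), Real.norm_eq_abs]
    exact mul_le_mul_of_nonneg_right (ti_mono hs _) (abs_nonneg _)
  constructor
  · unfold ContinuousWithinAt
    simp only [X_eq h]
    refine Tendsto.const_mul cc ?_
    refine tendsto_tsum_of_dominated_convergence (h.sum (t + 1)) (fun i => ?_) ?_
    · refine Tendsto.mul_const _ ?_
      refine tendsto_const_nhds.congr' ?_
      filter_upwards [ti_right t (pt ω i).1] with s hs
      exact hs.symm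
    · have : Iic (t + 1) ∈ 𝓝[≥] t := mem_nhdsWithin_of_mem_nhds (Iic_mem_nhds (by linarith))
      filter_upwards [this] with s hs
      exact hb s hs
  · refine ⟨cc * ∑' i : Lb ω, (Ioo 0 t).indicator (fun _ => (1 : ℝ)) (pt ω i).1 *
      jm (pt ω i).2, ?_⟩
    simp only [X_eq h]
    refine Tendsto.const_mul cc ?_
    refine tendsto_tsum_of_dominated_convergence (h.sum (t + 1)) (fun i => ?_) ?_
    · refine Tendsto.mul_const _ ?_
      refine tendsto_const_nhds.congr' ?_
      filter_upwards [ti_left t (pt ω i).1] with s hs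
      exact hs.symm
    · filter_upwards [self_mem_nhdsWithin] with s hs
      exact hb s (by
        have : s < t := hs
        linarith)

end Pool.Agent.V11331.ST

end
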