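import Pool.Agent.V11331.ST.Real

/-!
# The jump measure of a symmetric stable process of index `1/4`
-/

set_option autoImplicit false

open Filter Topology MeasureTheory ProbabilityTheory Set
open scoped ENNReal NNReal

noncomputable section

namespace Pool.Agent.V11331.ST

/-- the jump attached to a mark -/
def jm (u : ℝ) : ℝ := 1 / (u ^ 3 * |u|)

theorem jm_meas : Measurable jm := by
  unfold jm
  fun_prop

theorem jm_abs (u : ℝ) : |jm u| = 1 / u ^ 4 := by
  unfold jm
  rw [abs_div, abs_mul, abs_abs, abs_one, abs_pow]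
  have : |u| ^ 3 * |u| = u ^ 4 := by
    rw [← pow_succ]
    exact Even.pow_abs (by decide) u
  rw [this]

theorem jm_neg (u : ℝ) : jm (-u) = - jm u := by
  unfold jm
  rw [abs_neg]
  have : (-u) ^ 3 * |u| = -(u ^ 3 * |u|) := by ring
  rw [this, div_neg]

theorem jm_scale {a : ℝ} (ha : 0 < a) (u : ℝ) : jm (a⁻¹ * u) = a ^ 4 * jm u := by
  unfold jm
  rw [abs_mul, abs_of_pos (inv_pos.2 ha)]
  rcases eq_or_ne u 0 with rfl | hu
  · simp
  · have : |u| ≠ 0 := abs_ne_zero.2 hu
    field_simp

/-- the truncated absolute jump -/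
def w1 (u : ℝ) : ℝ := min 1 |jm u|

theorem w1_meas : Measurable w1 := by
  unfold w1
  exact measurable_const.min jm_meas.abs

theorem w1_nonneg (u : ℝ) : 0 ≤ w1 u := le_min zero_le_one (abs_nonneg _)

theorem w1_int : Integrable w1 := by
  refine (integrable_inv_one_add_sq.const_mul 2).mono' w1_meas.aestronglyMeasurable
    (Eventually.of_forall fun u => ?_)
  rw [Real.norm_of_nonneg (w1_nonneg u)]
  unfold w1
  rw [jm_abs]
  have h0 : (0 : ℝ) < 1 + u ^ 2 := by positivity
  rcases le_total (u ^ 2) 1 with h | h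
  · refine (min_le_left _ _).trans ?_
    rw [← div_eq_mul_inv, le_div_iff₀ h0]
    linarith
  · refine (min_le_right _ _).trans ?_
    have h4 : (0 : ℝ) < u ^ 4 := by
      have : u ^ 4 = (u ^ 2) ^ 2 := by ring
      rw [this]
      exact pow_pos (by linarith) 2
    rw [← div_eq_mul_inv, div_le_div_iff₀ h4 h0]
    nlinarith [sq_nonneg (u ^ 2 - 1)]

theorem norm_ei (x : ℝ) : ‖Complex.exp ((x : ℂ) * Complex.I) - 1‖ ≤ min 2 |x| := by
  refine le_min ?_ ?_
  · refine (norm_sub_le _ _).trans ?_
    rw [Complex.norm_exp_ofReal_mul_I, norm_one]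
    norm_num
  · have := Real.norm_exp_I_mul_ofReal_sub_one_le (x := x)
    rw [mul_comm Complex.I] at this
    exact this

theorem norm_ei' {M x u : ℝ} (hM : 0 ≤ M) (hx : |x| ≤ M * |jm u|) :
    ‖Complex.exp ((x : ℂ) * Complex.I) - 1‖ ≤ (2 + M) * w1 u := by
  refine (norm_ei x).trans ?_
  unfold w1
  rcases le_total |jm u| 1 with h | h
  · rw [min_eq_right h]
    refine (min_le_right _ _).trans (hx.trans ?_)
    nlinarith [abs_nonneg (jm u)]
  · rw [min_eq_left h]
    refine (min_le_left _ _).trans ?_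
    linarith

/-- the characteristic exponent -/
def q (θ : ℝ) : ℂ := ∫ u, (Complex.exp (((θ * jm u : ℝ) : ℂ) * Complex.I) - 1)

theorem q_int (θ : ℝ) :
    Integrable fun u => (Complex.exp (((θ * jm u : ℝ) : ℂ) * Complex.I) - 1) := by
  refine (w1_int.const_mul (2 + |θ|)).mono' ?_ (Eventually.of_forall fun u => ?_)
  · refine Measurable.aestronglyMeasurable ?_
    exact (Complex.measurable_exp.comp ((Complex.measurable_ofReal.comp
      (jm_meas.const_mul θ)).mul_const _)).sub_const 1
  · exact norm_ei' (abs_nonneg θ) (abs_mul _ _).le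

theorem q_scale {a : ℝ} (ha : 0 < a) (θ : ℝ) : q (a ^ 4 * θ) = a * q θ := by
  unfold q
  have h := Measure.integral_comp_mul_left
    (fun u => (Complex.exp (((θ * jm u : ℝ) : ℂ) * Complex.I) - 1)) a⁻¹
  rw [inv_inv, abs_of_pos ha, Complex.real_smul] at h
  rw [← h]
  refine integral_congr_ae (Eventually.of_forall fun u => ?_)
  simp only
  rw [jm_scale ha]
  congr 4
  ring

theorem q_neg (θ : ℝ) : q (-θ) = q θ := by
  unfold q
  rw [← integral_neg_eq_self (fun u => (Complex.exp (((θ * jm u : ℝ) : ℂ) * Complex.I) - 1))]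
  refine integral_congr_ae (Eventually.of_forall fun u => ?_)
  simp only
  rw [jm_neg]
  congr 4
  ring

theorem q_zero : q 0 = 0 := by
  unfold q
  simp

/-- minus the value of the characteristic exponent at `1` -/
def kap : ℝ := ∫ u, (1 - Real.cos (jm u))

theorem q_re (θ : ℝ) : (q θ).re = -∫ u, (1 - Real.cos (θ * jm u)) := by
  unfold q
  rw [← RCLike.re_eq_complex_re, ← integral_re (q_int θ), ← integral_neg]
  refine integral_congr_ae (Eventually.of_forall fun u => ?_)
  simp only [RCLike.re_eq_complex_re, Complex.sub_re, Complex.exp_ofReal_mul_I_re, Complex.one_re]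
  ring

theorem q_im (θ : ℝ) : (q θ).im = 0 := by
  have h1 : (q θ).im = ∫ u, Real.sin (θ * jm u) := by
    unfold q
    rw [← RCLike.im_eq_complex_im, ← integral_im (q_int θ)]
    refine integral_congr_ae (Eventually.of_forall fun u => ?_)
    simp only [RCLike.im_eq_complex_im, Complex.sub_im, Complex.exp_ofReal_mul_I_im, Complex.one_im,
      sub_zero]
  have h2 : ∫ u, Real.sin (θ * jm u) = -∫ u, Real.sin (θ * jm u) := by
    conv_lhs => rw [← integral_neg_eq_self]
    rw [← integral_neg]
    refine integral_congr_ae (Eventually.of_forall fun u => ?_)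
    simp only [jm_neg, mul_neg, Real.sin_neg]
  rw [h1]
  linarith

theorem q_one : q 1 = ((-kap : ℝ) : ℂ) := by
  apply Complex.ext
  · rw [q_re, Complex.ofReal_re]
    simp [kap]
  · rw [q_im, Complex.ofReal_im]

theorem q_eq (θ : ℝ) : q θ = ((-(kap * |θ| ^ (1 / 4 : ℝ)) : ℝ) : ℂ) := by
  rcases eq_or_ne θ 0 with rfl | h
  · rw [q_zero, abs_zero, Real.zero_rpow (by norm_num)]
    simp
  · have hp : 0 < |θ| := abs_pos.2 h
    have h1 : 0 < |θ| ^ (1 / 4 : ℝ) := Real.rpow_pos_of_pos hp _
    have h2 : (|θ| ^ (1 / 4 : ℝ)) ^ 4 = |θ| := by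
      rw [← Real.rpow_natCast, ← Real.rpow_mul hp.le]
      norm_num
    have h3 := q_scale h1 1
    rw [h2, mul_one, q_one] at h3
    have h4 : q θ = q |θ| := by
      rcases abs_choice θ with h5 | h5
      · rw [h5]
      · rw [h5, q_neg]
    rw [h4, h3]
    push_cast
    ring

theorem kap_int : Integrable fun u => (1 - Real.cos (jm u)) := by
  have h := (q_int 1).re.neg
  refine h.congr (Eventually.of_forall fun u => ?_)
  simp only [Pi.neg_apply, one_mul, RCLike.re_eq_complex_re, Complex.sub_re,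
    Complex.exp_ofReal_mul_I_re, Complex.one_re]
  ring

theorem kap_pos : 0 < kap := by
  unfold kap
  rw [integral_pos_iff_support_of_nonneg (fun u => by
    show 0 ≤ 1 - Real.cos (jm u)
    linarith [Real.cos_le_one (jm u)]) kap_int]
  have hsub : Ioo (1 : ℝ) 2 ⊆ Function.support fun u => (1 - Real.cos (jm u)) := by
    intro u hu
    rw [Function.mem_support]
    have h1 : 0 < u := by linarith [hu.1]
    have h2 : jm u = 1 / u ^ 4 := by
      unfold jm
      rw [abs_of_pos h1]
      congr 1
    have h3 : 0 < jm u := by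
      rw [h2]
      positivity
    have h4 : jm u < 1 := by
      rw [h2, div_lt_one (by positivity)]
      exact one_lt_pow₀ hu.1 (by norm_num)
    have h5 : Real.cos (jm u) < 1 := by
      rw [← Real.cos_zero]
      exact Real.cos_lt_cos_of_nonneg_of_le_pi le_rfl (by linarith [Real.pi_gt_three]) h3
    linarith
  refine lt_of_lt_of_le ?_ (measure_mono hsub)
  rw [Real.volume_Ioo]
  norm_num

end Pool.Agent.V11331.ST

end
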