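import Pool.Agent.V11331.ST.Jump

/-!
# The symmetric stable process of index `1/4`
-/

set_option autoImplicit false

open Filter Topology MeasureTheory ProbabilityTheory Set
open scoped ENNReal NNReal

noncomputable section

namespace Pool.Agent.V11331.ST

/-- the normalising constant -/
def cc : ℝ := kap⁻¹ ^ 4

theorem cc_pos : 0 < cc := by
  unfold cc
  exact pow_pos (inv_pos.2 kap_pos) 4

theorem kap_cc : kap * cc ^ (1 / 4 : ℝ) = 1 := by
  unfold cc
  rw [← Real.rpow_natCast, ← Real.rpow_mul (inv_pos.2 kap_pos).le]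
  norm_num
  exact mul_inv_cancel₀ kap_pos.ne'

/-- indicator of a time interval -/
def ti (a b x : ℝ) : ℝ := (Ioc a b).indicator (fun _ => (1 : ℝ)) x

theorem ti_meas (a b : ℝ) : Measurable (ti a b) :=
  measurable_const.indicator measurableSet_Ioc

theorem ti_nonneg (a b x : ℝ) : 0 ≤ ti a b x := indicator_nonneg (fun _ _ => zero_le_one) _

theorem ti_le_one (a b x : ℝ) : ti a b x ≤ 1 := by
  unfold ti
  by_cases h : x ∈ Ioc a b
  · rw [indicator_of_mem h]
  · rw [indicator_of_notMem h]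
    exact zero_le_one

theorem ti_of_mem {a b x : ℝ} (h : x ∈ Ioc a b) : ti a b x = 1 := indicator_of_mem h _

theorem ti_of_not {a b x : ℝ} (h : x ∉ Ioc a b) : ti a b x = 0 := indicator_of_notMem h _

theorem ti_mono {a b c : ℝ} (h : b ≤ c) (x : ℝ) : ti a b x ≤ ti a c x := by
  by_cases h1 : x ∈ Ioc a b
  · rw [ti_of_mem h1, ti_of_mem (a := a) (b := c) ⟨h1.1, h1.2.trans h⟩]
  · rw [ti_of_not h1]
    exact ti_nonneg _ _ _

theorem ti_sub {a b : ℝ} (ha : 0 ≤ a) (hab : a ≤ b) (x : ℝ) : ti 0 b x - ti 0 a x = ti a b x := by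
  by_cases h1 : x ∈ Ioc 0 a
  · rw [ti_of_mem h1, ti_of_mem (a := 0) (b := b) ⟨h1.1, h1.2.trans hab⟩, ti_of_not]
    · ring
    · intro h
      exact absurd h1.2 (not_le.2 h.1)
  · rw [ti_of_not h1, sub_zero]
    by_cases h2 : x ∈ Ioc 0 b
    · rw [ti_of_mem h2, ti_of_mem]
      refine ⟨?_, h2.2⟩
      by_contra h3
      exact h1 ⟨h2.1, not_lt.1 h3⟩
    · rw [ti_of_not h2, ti_of_not]
      intro h
      exact h2 ⟨lt_of_le_of_lt ha h.1, h.2⟩

theorem ti_int {a b : ℝ} : Integrable (ti a b) := by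
  unfold ti
  exact (integrable_indicator_iff measurableSet_Ioc).2 (by simp)

theorem int_ti {a b : ℝ} (h : a ≤ b) : ∫ x, ti a b x = b - a := by
  unfold ti
  rw [integral_indicator measurableSet_Ioc]
  simp [h]

/-- the process -/
def X (t : ℝ) (ω : Om) : ℝ := cc * R (fun y => ti 0 t y.1 * jm y.2) ω

theorem X_meas (t : ℝ) : Measurable (X t) := by
  unfold X
  refine (R_meas ?_).const_mul cc
  exact ((ti_meas 0 t).comp measurable_fst).mul (jm_meas.comp measurable_snd)

/-- the good configurations -/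
def Good (ω : Om) : Prop := ∀ T : ℕ, S (fun y => ENNReal.ofReal (ti 0 T y.1 * w1 y.2)) ω ≠ ∞

theorem lint_prod_le {w : ℝ → ℝ} (hw : Measurable w) (T : ℝ) :
    ∫⁻ y in hp, ENNReal.ofReal (ti 0 T y.1 * w y.2) ≤
      ENNReal.ofReal T * ∫⁻ u, ENNReal.ofReal (w u) := by
  refine (setLIntegral_le_lintegral _ _).trans ?_
  have h1 : ∀ y : Pt, ENNReal.ofReal (ti 0 T y.1 * w y.2) =
      ENNReal.ofReal (ti 0 T y.1) * ENNReal.ofReal (w y.2) := fun y =>
    ENNReal.ofReal_mul (ti_nonneg _ _ _)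
  simp only [h1]
  rw [Measure.volume_eq_prod, lintegral_prod_mul (f := fun x => ENNReal.ofReal (ti 0 T x))
    (g := fun u => ENNReal.ofReal (w u)) (ti_meas 0 T).ennreal_ofReal.aemeasurable
    hw.ennreal_ofReal.aemeasurable]
  refine mul_le_mul_left ?_ _
  have h2 : ∀ x, ENNReal.ofReal (ti 0 T x) = (Ioc 0 T).indicator (fun _ => 1) x := by
    intro x
    by_cases h : x ∈ Ioc 0 T
    · rw [ti_of_mem h, indicator_of_mem h, ENNReal.ofReal_one]
    · rw [ti_of_not h, indicator_of_notMem h, ENNReal.ofReal_zero]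
  simp only [h2]
  rw [lintegral_indicator measurableSet_Ioc]
  simp

theorem gd_meas {w : ℝ → ℝ} (hw : Measurable w) (T : ℝ) :
    Measurable fun y : Pt => ENNReal.ofReal (ti 0 T y.1 * w y.2) :=
  (((ti_meas 0 T).comp measurable_fst).mul (hw.comp measurable_snd)).ennreal_ofReal

theorem good_ae : ∀ᵐ ω ∂PP, Good ω := by
  unfold Good
  rw [ae_all_iff]
  intro T
  have h1 : ∫⁻ ω, S (fun y => ENNReal.ofReal (ti 0 T y.1 * w1 y.2)) ω ∂PP ≠ ∞ := by
    rw [lint_S (gd_meas w1_meas T)]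
    refine ((lint_prod_le w1_meas T).trans_lt ?_).ne
    exact ENNReal.mul_lt_top ENNReal.ofReal_lt_top w1_int.lintegral_lt_top
  filter_upwards [ae_lt_top (S_meas (gd_meas w1_meas T)) h1] with ω hω
  exact hω.ne

theorem Good.sum {ω : Om} (h : Good ω) (T : ℝ) :
    Summable fun i : Lb ω => ti 0 T (pt ω i).1 * |jm (pt ω i).2| := by
  obtain ⟨N, hN⟩ := exists_nat_ge T
  have h1 : Summable fun i : Lb ω => ti 0 N (pt ω i).1 * w1 (pt ω i).2 := by
    have h2 := h N
    rw [S_eq] at h2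
    refine (ENNReal.summable_toReal h2).congr fun i => ?_
    exact ENNReal.toReal_ofReal (mul_nonneg (ti_nonneg _ _ _) (w1_nonneg _))
  have h2 : Summable fun i : Lb ω => ti 0 N (pt ω i).1 * |jm (pt ω i).2| := by
    refine (summable_congr_cofinite ?_).2 h1
    filter_upwards [h1.tendsto_cofinite_zero.eventually (gt_mem_nhds zero_lt_one)] with i hi
    by_cases h3 : (pt ω i).1 ∈ Ioc (0 : ℝ) N
    · rw [ti_of_mem h3, one_mul] at hi ⊢
      rw [one_mul]
      unfold w1 at hi ⊢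
      rcases le_total |jm (pt ω i).2| 1 with h4 | h4
      · rw [min_eq_right h4]
      · rw [min_eq_left h4] at hi
        exact absurd hi (lt_irrefl _)
    · rw [ti_of_not h3]
      ring
  refine Summable.of_nonneg_of_le (fun i => mul_nonneg (ti_nonneg _ _ _) (abs_nonneg _))
    (fun i => ?_) h2
  exact mul_le_mul_of_nonneg_right (ti_mono hN _) (abs_nonneg _)

theorem Good.sum_g {ω : Om} (h : Good ω) {g : ℝ → ℝ} {M T : ℝ} (hM : ∀ s, |g s| ≤ M)
    (hT : ∀ s, s ∉ Ioc 0 T → g s = 0) :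
    Summable fun i : Lb ω => |g (pt ω i).1 * jm (pt ω i).2| := by
  refine Summable.of_nonneg_of_le (fun i => abs_nonneg _) (fun i => ?_) ((h.sum T).mul_left M)
  rw [abs_mul]
  by_cases h3 : (pt ω i).1 ∈ Ioc 0 T
  · rw [ti_of_mem h3, one_mul]
    exact mul_le_mul_of_nonneg_right (hM _) (abs_nonneg _)
  · rw [ti_of_not h3, hT _ h3]
    simp

theorem Good.sum_ti {ω : Om} (h : Good ω) {a b : ℝ} (ha : 0 ≤ a) :
    Summable fun i : Lb ω => |ti a b (pt ω i).1 * jm (pt ω i).2| := by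
  refine h.sum_g (g := ti a b) (M := 1) (T := b) (fun s => ?_) (fun s hs => ?_)
  · rw [abs_of_nonneg (ti_nonneg _ _ _)]
    exact ti_le_one _ _ _
  · exact ti_of_not fun h2 => hs ⟨lt_of_le_of_lt ha h2.1, h2.2⟩

theorem X_eq {ω : Om} (h : Good ω) (t : ℝ) :
    X t ω = cc * ∑' i : Lb ω, ti 0 t (pt ω i).1 * jm (pt ω i).2 := by
  unfold X
  rw [R_eq]
  exact h.sum_ti le_rfl

theorem X_sub {ω : Om} (h : Good ω) {a b : ℝ} (ha : 0 ≤ a) (hab : a ≤ b) :
    X b ω - X a ω = cc * ∑' i : Lb ω, ti a b (pt ω i).1 * jm (pt ω i).2 := by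
  rw [X_eq h, X_eq h, ← mul_sub, ← (h.sum_ti le_rfl).of_abs.tsum_sub (h.sum_ti le_rfl).of_abs]
  congr 1
  refine tsum_congr fun i => ?_
  rw [← sub_mul, ti_sub ha hab]

/-- the exponential formula for products -/
theorem expG {g : ℝ → ℝ} (hg : Measurable g) {M T : ℝ} (hM : ∀ s, |g s| ≤ M)
    (hT : ∀ s, s ∉ Ioc 0 T → g s = 0) :
    ∫ ω, Complex.exp ((R (fun y => g y.1 * jm y.2) ω : ℂ) * Complex.I) ∂PP =
      ((Real.exp (-(kap * ∫ s, |g s| ^ (1 / 4 : ℝ))) : ℝ) : ℂ) := by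
  have hM0 : 0 ≤ M := (abs_nonneg _).trans (hM 0)
  have hm : Measurable fun y : Pt => g y.1 * jm y.2 :=
    (hg.comp measurable_fst).mul (jm_meas.comp measurable_snd)
  have hint : Integrable
      (fun y : Pt => Complex.exp (((g y.1 * jm y.2 : ℝ) : ℂ) * Complex.I) - 1)
      ((volume : Measure ℝ).prod volume) := by
    have h1 : Integrable (fun y : Pt => ti 0 T y.1 * w1 y.2)
        ((volume : Measure ℝ).prod volume) := ti_int.mul_prod w1_int
    refine (h1.const_mul (2 + M)).mono' ?_ (Eventually.of_forall fun y => ?_)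
    · refine Measurable.aestronglyMeasurable ?_
      exact (Complex.measurable_exp.comp ((Complex.measurable_ofReal.comp hm).mul_const _)).sub_const 1
    · by_cases h3 : y.1 ∈ Ioc 0 T
      · rw [ti_of_mem h3, one_mul]
        refine norm_ei' hM0 ?_
        rw [abs_mul]
        exact mul_le_mul_of_nonneg_right (hM _) (abs_nonneg _)
      · rw [ti_of_not h3, hT _ h3]
        simp
  rw [charR hm (good_ae.mono fun ω hω => hω.sum_g hM hT) hint.integrableOn]
  rw [setIntegral_eq_integral_of_forall_compl_eq_zero (fun y hy => ?_), Measure.volume_eq_prod,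
    integral_prod _ hint]
  · have h1 : ∀ s, ∫ u, (Complex.exp (((g s * jm u : ℝ) : ℂ) * Complex.I) - 1) =
        ((-(kap * |g s| ^ (1 / 4 : ℝ)) : ℝ) : ℂ) := fun s => q_eq (g s)
    simp only [h1]
    rw [integral_complex_ofReal, integral_neg, integral_const_mul, Complex.ofReal_exp]
  · have h3 : y.1 ∉ Ioc 0 T := by
      intro h4
      exact hy ⟨h4.1.le, mem_univ _⟩
    rw [hT _ h3]
    simp

/-- the characteristic function of an increment -/
theorem char_incr {a b : ℝ} (ha : 0 ≤ a) (hab : a ≤ b) (ξ : ℝ) :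
    ∫ ω, Complex.exp (((ξ * (X b ω - X a ω) : ℝ) : ℂ) * Complex.I) ∂PP =
      ((Real.exp (-(b - a) * |ξ| ^ (1 / 4 : ℝ)) : ℝ) : ℂ) := by
  have h1 : ∀ᵐ ω ∂PP, Complex.exp (((ξ * (X b ω - X a ω) : ℝ) : ℂ) * Complex.I) =
      Complex.exp ((R (fun y => (cc * ξ * ti a b y.1) * jm y.2) ω : ℂ) * Complex.I) := by
    filter_upwards [good_ae] with ω hω
    congr 3
    have hs := hω.sum_ti (b := b) ha
    rw [X_sub hω ha hab, R_eq]
    · rw [← mul_assoc, ← tsum_mul_left]
      refine tsum_congr fun i => ?_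
      ring
    · refine (hs.mul_left |cc * ξ|).congr fun i => ?_
      rw [← abs_mul]
      congr 1
      ring
  rw [integral_congr_ae h1, expG (g := fun s => cc * ξ * ti a b s) ((ti_meas a b).const_mul _)
    (M := |cc * ξ|) (T := b)]
  · congr 2
    have h2 : ∀ s, |cc * ξ * ti a b s| ^ (1 / 4 : ℝ) = |cc * ξ| ^ (1 / 4 : ℝ) * ti a b s := by
      intro s
      by_cases h : s ∈ Ioc a b
      · rw [ti_of_mem h, mul_one, mul_one]
      · rw [ti_of_not h, mul_zero, mul_zero, abs_zero, Real.zero_rpow (by norm_num)]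
    simp only [h2]
    rw [integral_const_mul, int_ti hab, abs_mul, Real.mul_rpow (abs_nonneg _) (abs_nonneg _),
      abs_of_pos cc_pos]
    linear_combination (-(b - a) * |ξ| ^ (1 / 4 : ℝ)) * kap_cc
  · intro s
    rw [abs_mul, abs_of_nonneg (ti_nonneg _ _ _)]
    exact mul_le_of_le_one_right (abs_nonneg _) (ti_le_one _ _ _)
  · intro s hs
    rw [ti_of_not fun h2 => hs ⟨lt_of_le_of_lt ha h2.1, h2.2⟩, mul_zero]

end Pool.Agent.V11331.ST

end
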