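import Pool.Agent.V11331.ST.Pois

/-!
# Real sums over the points of a Poisson process and their characteristic functions
-/

set_option autoImplicit false

open Filter Topology MeasureTheory ProbabilityTheory Set
open scoped ENNReal NNReal

noncomputable section

namespace Pool.Agent.V11331.ST

/-- the labels of the points of a configuration -/
abbrev Lb (ω : Om) := Σ b : Ix, Fin (ω b).1

/-- the points of a configuration -/
def pt (ω : Om) (i : Lb ω) : Pt := (ω i.1).2 i.2

theorem S_eq (f : Pt → ℝ≥0∞) (ω : Om) : S f ω = ∑' i : Lb ω, f (pt ω i) := by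
  unfold S
  rw [ENNReal.tsum_sigma']
  refine tsum_congr fun b => ?_
  rw [tsum_fintype]
  unfold sb pt
  exact Finset.sum_range (fun l => f ((ω b).2 l))

/-- the real sum of `f` over the points -/
def R (f : Pt → ℝ) (ω : Om) : ℝ :=
  (S (fun y => ENNReal.ofReal (f y)) ω).toReal - (S (fun y => ENNReal.ofReal (-f y)) ω).toReal

theorem R_meas {f : Pt → ℝ} (hf : Measurable f) : Measurable (R f) := by
  unfold R
  exact (S_meas hf.ennreal_ofReal).ennreal_toReal.sub (S_meas hf.neg.ennreal_ofReal).ennreal_toReal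

theorem summable_abs {f : Pt → ℝ} {ω : Om} (h : S (fun y => ENNReal.ofReal |f y|) ω ≠ ∞) :
    Summable fun i : Lb ω => |f (pt ω i)| := by
  rw [S_eq] at h
  have h1 := ENNReal.summable_toReal h
  refine h1.congr fun i => ?_
  rw [ENNReal.toReal_ofReal (abs_nonneg _)]

theorem R_eq {f : Pt → ℝ} {ω : Om} (h : Summable fun i : Lb ω => |f (pt ω i)|) :
    R f ω = ∑' i : Lb ω, f (pt ω i) := by
  unfold R
  rw [S_eq, S_eq, ENNReal.tsum_toReal_eq fun _ => ENNReal.ofReal_ne_top,
    ENNReal.tsum_toReal_eq fun _ => ENNReal.ofReal_ne_top]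
  simp only [ENNReal.toReal_ofReal']
  have h1 : Summable fun i : Lb ω => max (f (pt ω i)) 0 :=
    Summable.of_nonneg_of_le (fun i => le_max_right _ _)
      (fun i => max_le (le_abs_self _) (abs_nonneg _)) h
  have h2 : Summable fun i : Lb ω => max (-f (pt ω i)) 0 :=
    Summable.of_nonneg_of_le (fun i => le_max_right _ _)
      (fun i => max_le (neg_le_abs _) (abs_nonneg _)) h
  rw [← h1.tsum_sub h2]
  refine tsum_congr fun i => ?_
  rcases le_total 0 (f (pt ω i)) with h3 | h3
  · rw [max_eq_left h3, max_eq_right (by linarith)]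
    ring
  · rw [max_eq_right h3, max_eq_left (by linarith)]
    ring

theorem hasSum_R {f : Pt → ℝ} {ω : Om} (h : Summable fun i : Lb ω => |f (pt ω i)|) :
    HasSum (fun b => ∑ l ∈ Finset.range (ω b).1, f ((ω b).2 l)) (R f ω) := by
  rw [R_eq h]
  have h1 : HasSum (fun i : Lb ω => f (pt ω i)) (∑' i : Lb ω, f (pt ω i)) := (h.of_abs).hasSum
  refine h1.sigma fun b => ?_
  have h2 := hasSum_fintype (fun l : Fin (ω b).1 => f (pt ω ⟨b, l⟩))
  have h3 : ∑ l : Fin (ω b).1, f (pt ω ⟨b, l⟩) =
      ∑ l ∈ Finset.range (ω b).1, f ((ω b).2 l) := by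
    rw [Finset.sum_range]
    rfl
  rw [h3] at h2
  exact h2

/-- the exponential formula -/
theorem charR {f : Pt → ℝ} (hf : Measurable f)
    (hs : ∀ᵐ ω ∂PP, Summable fun i : Lb ω => |f (pt ω i)|)
    (hi : IntegrableOn (fun y => Complex.exp ((f y : ℂ) * Complex.I) - 1) hp) :
    ∫ ω, Complex.exp ((R f ω : ℂ) * Complex.I) ∂PP =
      Complex.exp (∫ y in hp, (Complex.exp ((f y : ℂ) * Complex.I) - 1)) := by
  set g : Pt → ℂ := fun y => Complex.exp ((f y : ℂ) * Complex.I) with hg
  have hgm : Measurable g := by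
    rw [hg]
    exact Complex.measurable_exp.comp ((Complex.measurable_ofReal.comp hf).mul_const _)
  have hg1 : ∀ y, ‖g y‖ ≤ 1 := fun y => by
    rw [hg]
    simp only
    rw [Complex.norm_exp_ofReal_mul_I]
  have hhb : ∀ x : Blk, hb g x =
      Complex.exp (((∑ l ∈ Finset.range x.1, f (x.2 l) : ℝ) : ℂ) * Complex.I) := by
    intro x
    unfold hb
    rw [hg]
    simp only
    rw [← Complex.exp_sum]
    congr 1
    push_cast
    rw [Finset.sum_mul]
  have hprod : ∀ (F : Finset Ix) (ω : Om), ∏ b ∈ F, hb g (ω b) =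
      Complex.exp (((∑ b ∈ F, ∑ l ∈ Finset.range (ω b).1, f ((ω b).2 l) : ℝ) : ℂ) *
        Complex.I) := by
    intro F ω
    rw [Finset.prod_congr rfl fun b _ => hhb (ω b), ← Complex.exp_sum]
    congr 1
    push_cast
    rw [Finset.sum_mul]
  have t1 : Tendsto (fun F : Finset Ix => ∫ ω, ∏ b ∈ F, hb g (ω b) ∂PP) atTop
      (𝓝 (∫ ω, Complex.exp ((R f ω : ℂ) * Complex.I) ∂PP)) := by
    refine tendsto_integral_filter_of_dominated_convergence (fun _ => 1) ?_ ?_
      (integrable_const _) ?_
    · refine Eventually.of_forall fun F => ?_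
      refine Measurable.aestronglyMeasurable ?_
      refine Finset.measurable_fun_prod _ fun b _ => ?_
      exact (hb_meas hgm).comp (measurable_pi_apply b)
    · refine Eventually.of_forall fun F => Eventually.of_forall fun ω => ?_
      rw [norm_prod]
      exact Finset.prod_le_one (fun _ _ => norm_nonneg _) fun _ _ => hb_bd hg1 _
    · filter_upwards [hs] with ω hω
      simp only [hprod]
      have h1 : Tendsto (fun F : Finset Ix => ∑ b ∈ F, ∑ l ∈ Finset.range (ω b).1, f ((ω b).2 l))
          atTop (𝓝 (R f ω)) := hasSum_R hω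
      exact ((Complex.continuous_exp.comp
        ((Complex.continuous_ofReal).mul continuous_const)).tendsto (R f ω)).comp h1
  have t2 : Tendsto (fun F : Finset Ix => ∫ ω, ∏ b ∈ F, hb g (ω b) ∂PP) atTop
      (𝓝 (Complex.exp (∫ y in hp, (g y - 1)))) := by
    have e1 : ∀ F : Finset Ix, ∫ ω, ∏ b ∈ F, hb g (ω b) ∂PP =
        Complex.exp (∑ b ∈ F, ∫ y in box b, (g y - 1)) := by
      intro F
      unfold PP
      rw [int_prodC blk F (fun _ => hb g) fun _ => hb_meas hgm, Complex.exp_sum]
      exact Finset.prod_congr rfl fun b _ => int_hb b hgm hg1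
    simp only [e1]
    have h1 : HasSum (fun b => ∫ y in box b, (g y - 1)) (∫ y in ⋃ b, box b, (g y - 1)) :=
      hasSum_integral_iUnion box_meas box_disj (by rw [iUnion_box]; exact hi)
    rw [iUnion_box] at h1
    exact (Complex.continuous_exp.tendsto _).comp h1
  exact tendsto_nhds_unique t1 t2

end Pool.Agent.V11331.ST

end
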